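import Pool.Agent.W964.Nadic.Main

/-!
# The average `N`-adic complexity of the finite sequences of length `n` is `n / 2 + O(1)`

The definitions `prefixValue`, `IsFraction`, `complexity`, `average` are in
`Pool.Agent.W964.Nadic.Defs`.

Proof. For a word with value `α` modulo `M = N ^ n` let `m` be the maximum norm of the shortest
nonzero vector of the lattice `{(f, g) : f ≡ g α mod M}`. Its complexity is at least `log_N m`, and a
reduced basis of the lattice contains, after a small modification, a vector with `g` coprime to `N`
and norm at most `(N + 2) M / m` (or `2 M / m`, if `N` is a prime power). On the other hand the sum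
over all `α` of the numbers of lattice points `(f, g)` with `|f| ≤ √M`, `1 ≤ g ≤ √M` is at most
`3 M`, which bounds the average of `log_N (√M / m)`.
-/

set_option autoImplicit false

open Pool.Agent.W964.Nadic

namespace Pool.Agent.Results.MP_68df70_lc.HalfN

/-- **The average `N`-adic complexity of finite sequences.** For all `N ≥ 2` and all `n` the average
`E_n^fin` over all `N ^ n` sequences of length `n` differs from `n / 2` by at most `5`; more
precisely it is at least `n / 2 - 3 / log₂ N`, and for prime powers `N` it differs from `n / 2` by at
most `4 / log₂ N`. -/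
theorem result :
    (∀ N n : ℕ, 2 ≤ N → |average N n - (n : ℝ) / 2| ≤ 5 ∧
      (n : ℝ) / 2 - 3 / Real.logb 2 N ≤ average N n) ∧
    (∀ N n : ℕ, IsPrimePow N → |average N n - (n : ℝ) / 2| ≤ 4 / Real.logb 2 N) := by
  refine ⟨fun N n hN => ⟨abs_average_sub_le hN, average_lower hN⟩, fun N n hN => ?_⟩
  have h1 := average_lower (n := n) hN.two_le
  have h2 := average_upper_primePow (n := n) hN
  have hN1 : (1 : ℝ) < N := by exact_mod_cast hN.one_lt
  have hlog : 0 < Real.logb 2 N := Real.logb_pos (by norm_num) hN1
  have h3 : 3 / Real.logb 2 N ≤ 4 / Real.logb 2 N := by gcongr; norm_num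
  rw [abs_le]
  constructor <;> linarith

end Pool.Agent.Results.MP_68df70_lc.HalfN
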